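import Pool.Agent.X17.Eul.Main

/-!
# Strong synchronisation of descents and excedances on even and odd permutations
-/

set_option autoImplicit false

open Finset Equiv

namespace Pool.Agent.Results.MP_713645_co.StrongSync

open Pool.Agent.X17.Eul

/-- For every positive `n`: the sequences of the numbers of the even permutations of `n` letters with `k`
descents and with `k` excedances, `0 ≤ k ≤ n - 1`, are strongly synchronised, and so are the sequences of
the numbers of the odd permutations with `k` descents and with `k` excedances. The same holds for the
mixed pairs (even permutations by descents and odd ones by excedances, and conversely). -/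
theorem result (n : ℕ) (hn : 1 ≤ n) :
    StronglySynchronised (n - 1) (Ap n) (Pe n) ∧ StronglySynchronised (n - 1) (Am n) (Qo n) ∧
    StronglySynchronised (n - 1) (Ap n) (Qo n) ∧ StronglySynchronised (n - 1) (Am n) (Pe n) :=
  (main n hn).2

end Pool.Agent.Results.MP_713645_co.StrongSync
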